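import Pool.Agent.Q215.Alp.Play

/-!
# MP_b21e06_an : Alpern's strategy is optimal against a mobile hider
-/

namespace Pool.Agent.Results.MP_b21e06_an.AlpernOptimal

open Set Filter Topology MeasureTheory Pool.Agent.Q215.Alp
open scoped ENNReal

universe u

/-- Let `lam` be the parameters of Alpern's strategy and `v` its common payoff in the static game.

1. In the mobile-hider game Alpern's strategy guarantees `v`: the payoff is at most `v` against
every strategy of the hider which is never hit by a guess.

2. For every `ε > 0` there is a family `H u`, `0 < u < 1`, of pure strategies of the hider such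
that, for every pure strategy `G` of the searcher, for all `u` outside a countable set no guess
hits the hidden number and the payoff is at least `v - ε`.

3. Every mixed strategy `G` of the searcher (a random pure strategy, given on a probability space)
has worst-case expected payoff at least `v`: for every `ε > 0` there is a pure strategy `H` of the
hider such that almost surely no guess hits the hidden number and the payoff is at least `v - ε`;
in particular the expected payoff is at least `v - ε`. -/
theorem result (lam : ℤ → ℝ) (v : ℝ) (h : IsAlpern lam v) :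
    (∀ H, IsHider H → NoHit (alpern lam) H → pay (alpern lam) H ≤ ENNReal.ofReal v) ∧
    (∀ ε : ℝ, 0 < ε → ∃ H : ℝ → List ℝ → ℝ, (∀ u ∈ Ioo (0 : ℝ) 1, IsHider (H u)) ∧
      ∀ G : List Bool → ℝ, ∃ C : Set ℝ, C.Countable ∧ ∀ u ∈ Ioo (0 : ℝ) 1, u ∉ C →
        NoHit G (H u) ∧ ENNReal.ofReal (v - ε) ≤ pay G (H u)) ∧
    (∀ (Ω : Type u) [MeasurableSpace Ω] (P : Measure Ω) [IsProbabilityMeasure P]
      (G : Ω → List Bool → ℝ), (∀ s, Measurable fun ω => G ω s) → ∀ ε : ℝ, 0 < ε →
      ∃ H, IsHider H ∧
        (∀ᵐ ω ∂P, NoHit (G ω) H ∧ ENNReal.ofReal (v - ε) ≤ pay (G ω) H) ∧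
        ENNReal.ofReal (v - ε) ≤ ∫⁻ ω, pay (G ω) H ∂P) := by
  refine ⟨fun H hH hno => searcher_guarantee h hH hno, fun ε hε => hider_uniform h hε, ?_⟩
  intro Ω _ P _ G hG ε hε
  obtain ⟨H, hH, hae⟩ := hider_guarantee h P hG hε
  refine ⟨H, hH, hae, ?_⟩
  calc ENNReal.ofReal (v - ε) = ∫⁻ _, ENNReal.ofReal (v - ε) ∂P := by simp
    _ ≤ _ := lintegral_mono_ae (hae.mono fun ω hω => hω.2)

end Pool.Agent.Results.MP_b21e06_an.AlpernOptimal
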